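import Mathlib

set_option autoImplicit false

namespace Pool.Agent.Helper512.GenNumbers

/-
Outline.  Write `x N a = (-1) ^ (2-adic valuation of a, cut off at N)` for `a` in `ZMod (2 ^ N)`, and let
the free group on `t, u` act on `V N`, the functions from `ZMod (2 ^ N)` to `ZMod 3`, by the shift and by
multiplication with `x N`.  For a fast growing sequence of levels `N_i` and generic vectors
`v_1, ..., v_k` in the product of the `V (N_i)`, let `M` be the submodule generated by them.  The group is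
the group of all maps `y ↦ g y + w` with `g` in the free group and `w` in `M`.  Every finite quotient is
generated by three elements (the images of `t`, `u` and one translation), since `x` is aperiodic in the
limit and the diagonal characters occur with multiplicity one, while genericity shows that the group
itself needs at least `k` generators.
-/

/-! ### The 2-adic valuation on `ZMod (2 ^ N)` -/

abbrev L (N : ℕ) : Type := ZMod (2 ^ N)

open Classical in
/-- valuation, cut off at `N` -/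
noncomputable def val (N : ℕ) (x : L N) : ℕ := Nat.findGreatest (fun a => (2 : L N) ^ a ∣ x) N

theorem val_le (N : ℕ) (x : L N) : val N x ≤ N := Nat.findGreatest_le _

theorem pow_val_dvd (N : ℕ) (x : L N) : (2 : L N) ^ (val N x) ∣ x := by
  classical
  have := Nat.findGreatest_spec (P := fun a => (2 : L N) ^ a ∣ x) (Nat.zero_le N) (by simp)
  exact this

theorem dvd_iff (N : ℕ) (x : L N) {a : ℕ} (ha : a ≤ N) : (2 : L N) ^ a ∣ x ↔ a ≤ val N x := by
  classical
  constructor
  · intro h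
    exact Nat.le_findGreatest ha h
  · intro h
    exact (pow_dvd_pow _ h).trans (pow_val_dvd N x)

theorem val_congr (N : ℕ) (x y : L N) (h : ∀ a ≤ N, (2 : L N) ^ a ∣ x ↔ (2 : L N) ^ a ∣ y) :
    val N x = val N y := by
  apply le_antisymm
  · exact (dvd_iff N y (val_le N x)).mp ((h _ (val_le N x)).mp (pow_val_dvd N x))
  · exact (dvd_iff N x (val_le N y)).mp ((h _ (val_le N y)).mpr (pow_val_dvd N y))

theorem val_add (N p : ℕ) (hp : p ≤ N) (x y : L N) (hx : ¬ (2 : L N) ^ p ∣ x)
    (hy : (2 : L N) ^ p ∣ y) : val N (x + y) = val N x := by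
  apply val_congr
  intro a ha
  by_cases hap : a ≤ p
  · exact (dvd_add_left ((pow_dvd_pow _ hap).trans hy))
  · have h1 : (2 : L N) ^ p ∣ (2 : L N) ^ a := pow_dvd_pow _ (by omega)
    constructor
    · intro h
      exact absurd ((dvd_add_left hy).mp (h1.trans h)) hx
    · intro h
      exact absurd (h1.trans h) hx

theorem intCast_dvd (N : ℕ) (n : ℤ) {a : ℕ} (ha : a ≤ N) :
    (2 : L N) ^ a ∣ (n : L N) ↔ (2 : ℤ) ^ a ∣ n := by
  constructor
  · rintro ⟨c, hc⟩
    obtain ⟨c', rfl⟩ := ZMod.intCast_surjective c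
    have h1 : ((n - 2 ^ a * c' : ℤ) : ZMod (2 ^ N)) = 0 := by
      push_cast
      rw [hc]
      ring
    rw [ZMod.intCast_zmod_eq_zero_iff_dvd] at h1
    push_cast at h1
    have h2 : (2 : ℤ) ^ a ∣ n - 2 ^ a * c' := (pow_dvd_pow _ ha).trans h1
    have h3 := dvd_add h2 (dvd_mul_right ((2 : ℤ) ^ a) c')
    simpa using h3
  · rintro ⟨c, rfl⟩
    push_cast
    exact dvd_mul_right _ _

theorem val_eq (N : ℕ) (n : ℤ) {a : ℕ} (ha : a < N) (h1 : (2 : ℤ) ^ a ∣ n)
    (h2 : ¬ (2 : ℤ) ^ (a + 1) ∣ n) : val N (n : L N) = a := by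
  apply le_antisymm
  · by_contra hcon
    push Not at hcon
    have := (dvd_iff N (n : L N) (a := a + 1) ha).mpr hcon
    rw [intCast_dvd N n ha] at this
    exact h2 this
  · rw [← dvd_iff N _ ha.le, intCast_dvd N n ha.le]
    exact h1

/-- the sign attached to a position -/
noncomputable def sgn (N : ℕ) (x : L N) : ZMod 3 := (-1) ^ (val N x)

theorem sgn_cases (N : ℕ) (x : L N) : sgn N x = 1 ∨ sgn N x = -1 := by
  unfold sgn
  exact neg_one_pow_eq_or _ _

theorem sgn_mul_self (N : ℕ) (x : L N) : sgn N x * sgn N x = 1 := by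
  rcases sgn_cases N x with h | h <;> rw [h] <;> decide

theorem sgn_ne_of_val (N : ℕ) (x : L N) (M : ℕ) (y : L M) (h : val N x = val M y + 1) :
    sgn N x ≠ sgn M y := by
  unfold sgn
  rw [h, pow_succ]
  rcases neg_one_pow_eq_or (ZMod 3) (val M y) with h | h <;> rw [h] <;> decide

theorem sgn_ne_of_val' (N : ℕ) (x : L N) (M : ℕ) (y : L M) (h : val M y = val N x + 1) :
    sgn N x ≠ sgn M y := (sgn_ne_of_val M y N x h).symm

/-- equality of patterns of radius `r` -/
def Pat (N r : ℕ) (a a' : L N) : Prop :=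
  ∀ n : ℤ, |n| ≤ r → sgn N (a + n) = sgn N (a' + n)

theorem small_not_dvd (N r p : ℕ) (hp : 2 * r < 2 ^ p) (hpN : p ≤ N) (d : ℤ) (hd : d ≠ 0)
    (hdr : |d| ≤ 2 * r) : ¬ (2 : L N) ^ p ∣ (d : L N) := by
  rw [intCast_dvd N d hpN]
  intro h
  have h1 : (2 : ℤ) ^ p ≤ |d| := by
    apply Int.le_of_dvd (abs_pos.mpr hd)
    exact (dvd_abs _ _).mpr h
  have h2 : (2 * r : ℤ) < 2 ^ p := by exact_mod_cast hp
  omega

/-- every pattern occurring at level `N` occurs along a residue class modulo `2 ^ (p + 2)` -/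
theorem pattern_class (N r p : ℕ) (hp : 2 * r < 2 ^ p) (hpN : p + 2 ≤ N) (a : L N) :
    ∃ b : L N, ∀ c : L N, Pat N r (b + 2 ^ (p + 2) * c) a := by
  by_cases hA : ∃ j : ℤ, |j| ≤ r ∧ (2 : L N) ^ p ∣ a + j
  · obtain ⟨j, hj, hdiv⟩ := hA
    -- choose the exponent with the right parity
    obtain ⟨e, he, he', hpar⟩ : ∃ e : ℕ, p ≤ e ∧ e ≤ p + 1 ∧ ((-1 : ZMod 3)) ^ e = sgn N (a + j) := by
      rcases sgn_cases N (a + j) with h | h <;> rcases neg_one_pow_eq_or (ZMod 3) p with h' | h'
      · exact ⟨p, le_rfl, by omega, by rw [h, h']⟩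
      · exact ⟨p + 1, by omega, le_rfl, by rw [h, pow_succ, h']; decide⟩
      · exact ⟨p + 1, by omega, le_rfl, by rw [h, pow_succ, h']; decide⟩
      · exact ⟨p, le_rfl, by omega, by rw [h, h']⟩
    refine ⟨-(j : L N) + 2 ^ e, fun c n hn => ?_⟩
    obtain ⟨c', rfl⟩ := ZMod.intCast_surjective c
    by_cases hnj : n = j
    · subst hnj
      rw [← hpar]
      have : (-(n : L N) + 2 ^ e + 2 ^ (p + 2) * (c' : L N) + (n : L N)) =
          ((2 ^ e + 2 ^ (p + 2) * c' : ℤ) : L N) := by push_cast; ring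
      rw [this]
      unfold sgn
      rw [val_eq N _ (a := e) (by omega)]
      · exact dvd_add (dvd_refl _) ((pow_dvd_pow _ (by omega)).mul_right _)
      · intro hcon
        have h2 : (2 : ℤ) ^ (e + 1) ∣ 2 ^ (p + 2) * c' := (pow_dvd_pow _ (by omega)).mul_right _
        have h3 := (Int.dvd_add_left h2).mp hcon
        have h4 := Int.le_of_dvd (by positivity) h3
        rw [pow_succ] at h4
        have : (0 : ℤ) < 2 ^ e := by positivity
        omega
    · have hd : n - j ≠ 0 := sub_ne_zero.mpr hnj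
      have hdr : |n - j| ≤ 2 * r := by
        have := abs_sub n j
        have h3 : |n - j| ≤ |n| + |j| := abs_sub _ _
        omega
      have hnd := small_not_dvd N r p hp (by omega) (n - j) hd hdr
      have e1 : val N (-(j : L N) + 2 ^ e + 2 ^ (p + 2) * (c' : L N) + (n : L N)) =
          val N ((n - j : ℤ) : L N) := by
        have : (-(j : L N) + 2 ^ e + 2 ^ (p + 2) * (c' : L N) + (n : L N)) =
          ((n - j : ℤ) : L N) + (2 ^ e + 2 ^ (p + 2) * (c' : L N)) := by push_cast; ring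
        rw [this]
        apply val_add N p (by omega) _ _ hnd
        exact dvd_add (pow_dvd_pow _ he) ((pow_dvd_pow _ (by omega)).mul_right _)
      have e2 : val N (a + (n : L N)) = val N ((n - j : ℤ) : L N) := by
        have : (a + (n : L N)) = ((n - j : ℤ) : L N) + (a + j) := by push_cast; ring
        rw [this]
        exact val_add N p (by omega) _ _ hnd hdiv
      unfold sgn
      rw [e1, e2]
  · push Not at hA
    refine ⟨a, fun c n hn => ?_⟩
    have : a + 2 ^ (p + 2) * c + (n : L N) = (a + n) + 2 ^ (p + 2) * c := by ring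
    unfold sgn
    rw [this, val_add N p (by omega) _ _ (hA n hn) ((pow_dvd_pow _ (by omega)).mul_right _)]


theorem val_two_pow (N a : ℕ) (ha : a ≤ N) : val N ((2 : L N) ^ a) = a := by
  rcases ha.lt_or_eq with h | h
  · have := val_eq N ((2 : ℤ) ^ a) h (dvd_refl _) (by
      intro hcon
      have := Int.le_of_dvd (by positivity) hcon
      rw [pow_succ] at this
      have : (0 : ℤ) < 2 ^ a := by positivity
      omega)
    simpa using this
  · subst h
    apply le_antisymm (val_le _ _)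
    rw [← dvd_iff _ _ le_rfl]

theorem aperiodic (q : ℕ) (hq : q ≠ 0) : ∃ A : ℕ, ∀ N : ℕ, A ≤ N → ∀ x : L N,
    ∃ n : ℕ, n < 2 ^ A ∧ sgn N (x + n) ≠ sgn N (x + n + q) := by
  obtain ⟨a, m, hm, rfl⟩ := Nat.exists_eq_two_pow_mul_odd hq
  refine ⟨a + 2, fun N hN x => ?_⟩
  obtain ⟨y, rfl⟩ := ZMod.intCast_surjective x
  set n : ℕ := ((2 ^ (a + 1) - y) % 2 ^ (a + 2) : ℤ).toNat with hn
  have hpos : (0 : ℤ) < 2 ^ (a + 2) := by positivity
  have hn0 : (n : ℤ) = (2 ^ (a + 1) - y) % 2 ^ (a + 2) := by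
    rw [hn, Int.toNat_of_nonneg (Int.emod_nonneg _ hpos.ne')]
  refine ⟨n, ?_, ?_⟩
  · have : (n : ℤ) < 2 ^ (a + 2) := by rw [hn0]; exact Int.emod_lt_of_pos _ hpos
    exact_mod_cast this
  · obtain ⟨c, hc⟩ : ∃ c : ℤ, y + n = 2 ^ (a + 1) + 2 ^ (a + 2) * c := by
      refine ⟨-((2 ^ (a + 1) - y) / 2 ^ (a + 2)), ?_⟩
      have := Int.emod_add_mul_ediv (2 ^ (a + 1) - y) (2 ^ (a + 2))
      rw [hn0]
      linarith
    obtain ⟨m', rfl⟩ := hm
    have e1 : ((y : L N) + (n : L N)) = ((2 ^ (a + 1) * (1 + 2 * c) : ℤ) : L N) := by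
      have : ((y : L N) + (n : L N)) = ((y + n : ℤ) : L N) := by push_cast; ring
      rw [this, hc]
      congr 1
      ring
    have e2 : ((y : L N) + (n : L N) + ((2 ^ a * (2 * m' + 1) : ℕ) : L N)) =
        ((2 ^ a * (1 + 2 * (m' + 1 + 2 * c)) : ℤ) : L N) := by
      have : ((y : L N) + (n : L N) + ((2 ^ a * (2 * m' + 1) : ℕ) : L N)) =
        ((y + n + 2 ^ a * (2 * m' + 1) : ℤ) : L N) := by push_cast; ring
      rw [this, hc]
      congr 1
      ring
    have odd_not : ∀ (b : ℕ) (z : ℤ), ¬ (2 : ℤ) ^ (b + 1) ∣ 2 ^ b * (1 + 2 * z) := by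
      intro b z hcon
      rw [pow_succ] at hcon
      have := Int.dvd_of_mul_dvd_mul_left (by positivity : (2 : ℤ) ^ b ≠ 0) hcon
      omega
    apply sgn_ne_of_val
    rw [e2, e1, val_eq N _ (a := a + 1) (by omega) (dvd_mul_right _ _) (odd_not _ _),
      val_eq N _ (a := a) (by omega) (dvd_mul_right _ _) (odd_not _ _)]

theorem sep_same (N : ℕ) (x y : L N) (h : x ≠ y) :
    ∃ n : ℕ, sgn N (x + n) ≠ sgn N (y + n) := by
  have hd : y - x ≠ 0 := sub_ne_zero.mpr h.symm
  set a := val N (y - x) with ha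
  have haN : a < N := by
    rcases (val_le N (y - x)).lt_or_eq with h1 | h1
    · exact h1
    · exfalso
      have h2 := pow_val_dvd N (y - x)
      rw [h1] at h2
      have h3 : (2 : L N) ^ N = 0 := by
        have := ZMod.natCast_self (2 ^ N)
        push_cast at this
        exact this
      rw [h3] at h2
      exact hd (zero_dvd_iff.mp h2)
  refine ⟨(2 ^ (a + 1) - x : L N).val, ?_⟩
  have e1 : x + (((2 ^ (a + 1) - x : L N).val : ℕ) : L N) = 2 ^ (a + 1) := by
    rw [ZMod.natCast_zmod_val]; ring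
  have e2 : y + (((2 ^ (a + 1) - x : L N).val : ℕ) : L N) = (y - x) + 2 ^ (a + 1) := by
    rw [ZMod.natCast_zmod_val]; ring
  apply sgn_ne_of_val
  rw [e1, e2, val_two_pow N _ haN, val_add N (a + 1) haN _ _ _ (dvd_refl _)]
  rw [dvd_iff N _ haN]
  omega

theorem sep_diff (N M : ℕ) (hNM : N < M) (x : L N) (y : L M) :
    ∃ n : ℕ, sgn N (x + n) ≠ sgn M (y + n) := by
  by_contra hcon
  push Not at hcon
  have h0 := hcon (-y).val
  have h1 := hcon ((-y).val + 2 ^ (M - 1))
  have e0 : y + (((-y).val : ℕ) : L M) = 2 ^ M := by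
    rw [ZMod.natCast_zmod_val]
    have := ZMod.natCast_self (2 ^ M)
    push_cast at this
    rw [this]; ring
  have e1 : y + (((-y).val + 2 ^ (M - 1) : ℕ) : L M) = 2 ^ (M - 1) := by
    push_cast
    rw [ZMod.natCast_zmod_val]; ring
  have e2 : x + (((-y).val + 2 ^ (M - 1) : ℕ) : L N) = x + (((-y).val : ℕ) : L N) := by
    have : ((2 ^ (M - 1) : ℕ) : L N) = 0 := by
      rw [ZMod.natCast_eq_zero_iff]
      exact pow_dvd_pow _ (by omega)
    rw [Nat.cast_add, this, add_zero]
  rw [e0] at h0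
  rw [e1, e2, h0] at h1
  apply sgn_ne_of_val M ((2 : L M) ^ M) M ((2 : L M) ^ (M - 1)) _ h1
  rw [val_two_pow M M le_rfl, val_two_pow M (M - 1) (by omega)]
  omega


/-! ### The modules -/

abbrev F2 : Type := FreeGroup (Fin 2)

abbrev R : Type := MonoidAlgebra (ZMod 3) F2

instance instCountableR : Countable R := by
  have : Function.Injective (fun x : R => x.coeff) := by
    intro x y h
    cases x; cases y
    simp only at h
    rw [h]
  exact this.countable

/-- functions at level `N` -/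
def V (N : ℕ) : Type := L N → ZMod 3

noncomputable instance (N : ℕ) : AddCommGroup (V N) := inferInstanceAs (AddCommGroup (L N → ZMod 3))
noncomputable instance (N : ℕ) : Module (ZMod 3) (V N) := inferInstanceAs (Module (ZMod 3) (L N → ZMod 3))
instance (N : ℕ) : Finite (V N) := inferInstanceAs (Finite (L N → ZMod 3))
instance (N : ℕ) : Nontrivial (V N) := inferInstanceAs (Nontrivial (L N → ZMod 3))

theorem V_add (N : ℕ) (x y : V N) (a : L N) : (x + y) a = x a + y a := rfl
theorem V_zero (N : ℕ) (a : L N) : (0 : V N) a = 0 := rfl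
theorem V_neg (N : ℕ) (x : V N) (a : L N) : (-x) a = - x a := rfl
theorem V_smul (N : ℕ) (c : ZMod 3) (x : V N) (a : L N) : (c • x) a = c * x a := rfl
theorem V_ext (N : ℕ) (x y : V N) (h : ∀ a, x a = y a) : x = y := funext h

noncomputable def tE (N : ℕ) : V N ≃ₗ[ZMod 3] V N where
  toFun x := fun a => x (a + 1)
  map_add' x y := rfl
  map_smul' c x := rfl
  invFun x := fun a => x (a - 1)
  left_inv x := by apply V_ext; intro a; show x (a - 1 + 1) = x a; rw [sub_add_cancel]
  right_inv x := by apply V_ext; intro a; show x (a + 1 - 1) = x a; rw [add_sub_cancel_right]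

noncomputable def uE (N : ℕ) : V N ≃ₗ[ZMod 3] V N where
  toFun x := fun a => sgn N a * x a
  map_add' x y := by apply V_ext; intro a; exact mul_add _ _ _
  map_smul' c x := by
    apply V_ext; intro a
    show sgn N a * (c * x a) = c * (sgn N a * x a)
    ring
  invFun x := fun a => sgn N a * x a
  left_inv x := by
    apply V_ext; intro a
    show sgn N a * (sgn N a * x a) = x a
    rw [← mul_assoc, sgn_mul_self, one_mul]
  right_inv x := by
    apply V_ext; intro a
    show sgn N a * (sgn N a * x a) = x a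
    rw [← mul_assoc, sgn_mul_self, one_mul]

theorem tE_apply (N : ℕ) (x : V N) (a : L N) : tE N x a = x (a + 1) := rfl
theorem tE_symm_apply (N : ℕ) (x : V N) (a : L N) : (tE N)⁻¹ x a = x (a - 1) := rfl
theorem uE_apply (N : ℕ) (x : V N) (a : L N) : uE N x a = sgn N a * x a := rfl
theorem uE_symm_apply (N : ℕ) (x : V N) (a : L N) : (uE N)⁻¹ x a = sgn N a * x a := rfl

noncomputable def rho (N : ℕ) : F2 →* (V N ≃ₗ[ZMod 3] V N) := FreeGroup.lift ![tE N, uE N]

noncomputable def act (N : ℕ) : R →ₐ[ZMod 3] Module.End (ZMod 3) (V N) :=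
  MonoidAlgebra.lift _ _ _
    ((LinearEquiv.automorphismGroup.toLinearMapMonoidHom (R := ZMod 3) (M := V N)).comp (rho N))

noncomputable instance instModuleV (N : ℕ) : Module R (V N) := Module.compHom (V N) (act N).toRingHom

theorem R_smul_def (N : ℕ) (z : R) (x : V N) : z • x = act N z x := rfl

noncomputable abbrev og (g : F2) : R := MonoidAlgebra.of (ZMod 3) F2 g

theorem of_smul (N : ℕ) (g : F2) (x : V N) : og g • x = rho N g x := by
  rw [R_smul_def, act, og, MonoidAlgebra.lift_of]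
  rfl

theorem R_smul_smul (N : ℕ) (c : ZMod 3) (z : R) (x : V N) : (c • z) • x = c • (z • x) := by
  rw [R_smul_def, R_smul_def, map_smul]
  rfl

/-- locality of an operator -/
def Loc (N : ℕ) (f : V N → V N) (r : ℕ) : Prop :=
  ∀ (a a' : L N) (x x' : V N), Pat N r a a' → (∀ n : ℤ, |n| ≤ r → x (a + n) = x' (a' + n)) →
    f x a = f x' a'

theorem Pat.mono {N r s : ℕ} (h : r ≤ s) {a a' : L N} (hp : Pat N s a a') : Pat N r a a' :=
  fun n hn => hp n (hn.trans (by exact_mod_cast h))

theorem Loc.mono {N r s : ℕ} (h : r ≤ s) {f : V N → V N} (hf : Loc N f r) : Loc N f s :=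
  fun a a' x x' hp hx => hf a a' x x' (hp.mono h) (fun n hn => hx n (hn.trans (by exact_mod_cast h)))

theorem Loc.comp {N r s : ℕ} {f g : V N → V N} (hf : Loc N f r) (hg : Loc N g s) :
    Loc N (fun x => f (g x)) (r + s) := by
  intro a a' x x' hp hx
  apply hf a a' (g x) (g x') (hp.mono (by omega))
  intro n hn
  apply hg
  · intro m hm
    have h := hp (n + m) (by
      have := abs_add_le n m
      push_cast
      omega)
    push_cast at h
    rw [add_assoc, add_assoc]
    exact h
  · intro m hm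
    have h := hx (n + m) (by
      have := abs_add_le n m
      push_cast
      omega)
    push_cast at h
    rw [add_assoc, add_assoc]
    exact h

theorem Loc.add {N r s : ℕ} {f g : V N → V N} (hf : Loc N f r) (hg : Loc N g s) :
    Loc N (fun x => f x + g x) (max r s) := by
  intro a a' x x' hp hx
  show f x a + g x a = f x' a' + g x' a'
  rw [(hf.mono (le_max_left r s)) a a' x x' hp hx, (hg.mono (le_max_right r s)) a a' x x' hp hx]

theorem Loc.smul {N r : ℕ} {f : V N → V N} (hf : Loc N f r) (c : ZMod 3) :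
    Loc N (fun x => c • f x) r := by
  intro a a' x x' hp hx
  show c * f x a = c * f x' a'
  rw [hf a a' x x' hp hx]

theorem loc_id (N : ℕ) : Loc N (fun x => x) 0 := by
  intro a a' x x' hp hx
  simpa using hx 0 (by simp)

theorem loc_t (N : ℕ) : Loc N (tE N) 1 := by
  intro a a' x x' hp hx
  rw [tE_apply, tE_apply]
  have := hx 1 (by simp)
  simpa using this

theorem loc_t' (N : ℕ) : Loc N (((tE N)⁻¹ : V N ≃ₗ[ZMod 3] V N)) 1 := by
  intro a a' x x' hp hx
  rw [tE_symm_apply, tE_symm_apply]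
  have := hx (-1) (by simp)
  simpa [sub_eq_add_neg] using this

theorem loc_u (N : ℕ) : Loc N (uE N) 0 := by
  intro a a' x x' hp hx
  rw [uE_apply, uE_apply]
  have h1 := hx 0 (by simp)
  have h2 := hp 0 (by simp)
  simp only [Int.cast_zero, add_zero] at h1 h2
  rw [h1, h2]

theorem loc_u' (N : ℕ) : Loc N (((uE N)⁻¹ : V N ≃ₗ[ZMod 3] V N)) 0 := by
  intro a a' x x' hp hx
  rw [uE_symm_apply, uE_symm_apply]
  have h1 := hx 0 (by simp)
  have h2 := hp 0 (by simp)
  simp only [Int.cast_zero, add_zero] at h1 h2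
  rw [h1, h2]

theorem loc_rho (g : F2) : ∃ r : ℕ, ∀ N : ℕ, Loc N (rho N g) r := by
  induction g using FreeGroup.induction_on with
  | C1 => exact ⟨0, fun N => by rw [map_one]; exact loc_id N⟩
  | of i =>
    fin_cases i
    · exact ⟨1, fun N => by
        show Loc N (rho N (FreeGroup.of 0)) 1
        rw [rho, FreeGroup.lift_apply_of]; exact loc_t N⟩
    · exact ⟨0, fun N => by
        show Loc N (rho N (FreeGroup.of 1)) 0
        rw [rho, FreeGroup.lift_apply_of]; exact loc_u N⟩
  | inv_of i _ =>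
    fin_cases i
    · exact ⟨1, fun N => by
        show Loc N (rho N (FreeGroup.of 0)⁻¹) 1
        rw [map_inv, rho, FreeGroup.lift_apply_of]; exact loc_t' N⟩
    · exact ⟨0, fun N => by
        show Loc N (rho N (FreeGroup.of 1)⁻¹) 0
        rw [map_inv, rho, FreeGroup.lift_apply_of]; exact loc_u' N⟩
  | mul g h hg hh =>
    obtain ⟨r, hr⟩ := hg
    obtain ⟨s, hs⟩ := hh
    exact ⟨r + s, fun N => by rw [map_mul]; exact (hr N).comp (hs N)⟩

theorem loc_R (z : R) : ∃ r : ℕ, ∀ N : ℕ, Loc N (fun x => z • x) r := by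
  induction z using MonoidAlgebra.induction_on with
  | of g =>
    obtain ⟨r, hr⟩ := loc_rho g
    refine ⟨r, fun N => ?_⟩
    have : (fun x : V N => (MonoidAlgebra.of (ZMod 3) F2 g : R) • x) = rho N g := by
      funext x
      exact of_smul N g x
    rw [this]
    exact hr N
  | add y z hy hz =>
    obtain ⟨r, hr⟩ := hy
    obtain ⟨s, hs⟩ := hz
    refine ⟨max r s, fun N => ?_⟩
    simp only [add_smul]
    exact (hr N).add (hs N)
  | smul c z hz =>
    obtain ⟨r, hr⟩ := hz
    refine ⟨r, fun N => ?_⟩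
    simp only [R_smul_smul]
    exact (hr N).smul c


/-- the additive map attached to a tuple of operators -/
noncomputable def tup (N : ℕ) {k : ℕ} (z : Fin k → R) : (Fin k → V N) →+ V N where
  toFun x := ∑ j, z j • x j
  map_zero' := by simp
  map_add' x y := by simp [smul_add, Finset.sum_add_distrib]

theorem tup_apply (N : ℕ) {k : ℕ} (z : Fin k → R) (x : Fin k → V N) :
    tup N z x = ∑ j, z j • x j := rfl

theorem growth {k : ℕ} (z : Fin k → R) (C : ℕ) : ∃ N0 : ℕ, ∀ N : ℕ, N0 ≤ N →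
    (∀ j, ∀ x : V N, z j • x = 0) ∨ C < (tup N z).ker.index := by
  choose rj hrj using fun j => loc_R (z j)
  obtain ⟨r, hr⟩ : ∃ r : ℕ, ∀ j, rj j ≤ r := ⟨Finset.univ.sup rj, fun j => Finset.le_sup (Finset.mem_univ j)⟩
  have hloc : ∀ j N, Loc N (fun x => z j • x) r := fun j N => (hrj j N).mono (hr j)
  set p := r + 1 with hp
  have hp2 : 2 * r < 2 ^ p := by
    rw [hp, pow_succ]
    have := Nat.lt_two_pow_self (n := r)
    omega
  refine ⟨p + 2 + (C + 1), fun N hN => ?_⟩
  by_cases hz : ∀ j, ∀ x : V N, z j • x = 0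
  · exact Or.inl hz
  right
  push Not at hz
  obtain ⟨j, x0, hx0⟩ := hz
  obtain ⟨a, ha⟩ : ∃ a : L N, (z j • x0) a ≠ 0 := by
    by_contra hcon
    push Not at hcon
    exact hx0 (V_ext N _ _ hcon)
  obtain ⟨b, hb⟩ := pattern_class N r p hp2 (by omega) a
  classical
  let w : Fin (C + 1) → L N := fun c => b + 2 ^ (p + 2) * ((c : ℕ) : L N)
  let xx : Fin (C + 1) → V N := fun c =>
    (fun y : L N => if ∃ n : ℤ, |n| ≤ r ∧ y = w c + n then x0 (a + (y - w c)) else 0)
  have hsame : ∀ c, (z j • xx c) (w c) = (z j • x0) a := by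
    intro c
    apply hloc j N (w c) a (xx c) x0 (hb _)
    intro n hn
    show (if ∃ m : ℤ, |m| ≤ r ∧ w c + n = w c + m then x0 (a + (w c + n - w c)) else 0) = _
    rw [if_pos ⟨n, hn, rfl⟩]
    congr 1
    ring
  have hdiff : ∀ c c', c ≠ c' → (z j • xx c) (w c') = 0 := by
    intro c c' hcc
    have h0 : (z j • xx c) (w c') = (z j • (0 : V N)) (w c') := by
      apply hloc j N (w c') (w c') (xx c) 0 (fun n _ => rfl)
      intro n hn
      show (if ∃ m : ℤ, |m| ≤ r ∧ w c' + n = w c + m then x0 (a + (w c' + n - w c)) else 0) = 0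
      rw [if_neg]
      rintro ⟨m, hm, hmn⟩
      have e1 : (2 : L N) ^ (p + 2) * ((((c' : ℕ) : ℤ) - ((c : ℕ) : ℤ) : ℤ) : L N) =
          ((m - n : ℤ) : L N) := by
        push_cast
        have h2 : b + 2 ^ (p + 2) * ((c' : ℕ) : L N) + (n : L N) =
          b + 2 ^ (p + 2) * ((c : ℕ) : L N) + (m : L N) := hmn
        linear_combination h2
      by_cases hmn' : m - n = 0
      · rw [hmn', Int.cast_zero] at e1
        have e2 : (((2 : ℤ) ^ (p + 2) * (((c' : ℕ) : ℤ) - ((c : ℕ) : ℤ)) : ℤ) : ZMod (2 ^ N)) = 0 := by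
          push_cast
          push_cast at e1
          exact e1
        rw [ZMod.intCast_zmod_eq_zero_iff_dvd] at e2
        have hne : (((c' : ℕ) : ℤ) - ((c : ℕ) : ℤ)) ≠ 0 := by
          intro hcon
          apply hcc
          apply Fin.ext
          omega
        have hlt : |(((c' : ℕ) : ℤ) - ((c : ℕ) : ℤ))| < C + 1 := by
          have h1 := c.2
          have h2 := c'.2
          rw [abs_lt]
          constructor <;> omega
        have e3 : ((2 ^ N : ℕ) : ℤ) ≤ |(2 : ℤ) ^ (p + 2) * (((c' : ℕ) : ℤ) - ((c : ℕ) : ℤ))| := by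
          apply Int.le_of_dvd
          · apply abs_pos.mpr
            exact mul_ne_zero (by positivity) hne
          · exact (dvd_abs _ _).mpr e2
        rw [abs_mul, abs_of_pos (by positivity : (0 : ℤ) < 2 ^ (p + 2))] at e3
        have e4 : (2 : ℤ) ^ (p + 2 + (C + 1)) ≤ ((2 ^ N : ℕ) : ℤ) := by
          push_cast
          exact pow_le_pow_right₀ (by norm_num) hN
        have e5 : ((C + 1 : ℕ) : ℤ) < 2 ^ (C + 1) := by exact_mod_cast Nat.lt_two_pow_self
        have e6 : (2 : ℤ) ^ (p + 2 + (C + 1)) = 2 ^ (p + 2) * 2 ^ (C + 1) := pow_add _ _ _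
        have e7 : (0 : ℤ) < 2 ^ (p + 2) := by positivity
        have e8 : (2 : ℤ) ^ (p + 2) * |(((c' : ℕ) : ℤ) - ((c : ℕ) : ℤ))| <
            2 ^ (p + 2) * 2 ^ (C + 1) := by
          apply mul_lt_mul_of_pos_left _ e7
          push_cast at e5
          linarith
        linarith
      · have hle : |m - n| ≤ 2 * r := by
          have := abs_sub m n
          omega
        apply small_not_dvd N r p hp2 (by omega) (m - n) hmn' hle
        rw [← e1]
        exact (pow_dvd_pow _ (by omega)).mul_right _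
    rw [h0, smul_zero]
    rfl
  rw [AddSubgroup.index_ker]
  let F : Fin (C + 1) → (tup N z).range := fun c =>
    ⟨z j • xx c, ⟨Pi.single j (xx c), by
      rw [tup_apply, Finset.sum_eq_single j]
      · rw [Pi.single_eq_same]
      · intro i _ hi
        rw [Pi.single_eq_of_ne hi, smul_zero]
      · intro h
        exact absurd (Finset.mem_univ j) h⟩⟩
  have hF : Function.Injective F := by
    intro c c' hcc
    by_contra hne
    have h1 : z j • xx c = z j • xx c' := congrArg Subtype.val hcc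
    have h2 := hsame c
    rw [h1, hdiff c' c (Ne.symm hne)] at h2
    exact ha h2.symm
  have hcard := Nat.card_le_card_of_injective F hF
  rw [Nat.card_eq_fintype_card, Fintype.card_fin] at hcard
  omega

open scoped Pointwise in
theorem generic {k : ℕ} (e : ℕ → Fin k → R) : ∃ Nn : ℕ → ℕ, StrictMono Nn ∧
    ∃ v : ∀ i, Fin k → V (Nn i), ∀ i, ∀ a ≤ i, ∑ j, e a j • v i j = 0 →
      ∀ j, ∀ x : V (Nn i), e a j • x = 0 := by
  have hev : ∀ i : ℕ, ∀ᶠ N in Filter.atTop, ∃ v : Fin k → V N, ∀ a ≤ i,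
      ∑ j, e a j • v j = 0 → ∀ j, ∀ x : V N, e a j • x = 0 := by
    intro i
    choose N0 hN0 using fun a => growth (e a) (i + 1)
    rw [Filter.eventually_atTop]
    refine ⟨(Finset.range (i + 1)).sup N0, fun N hN => ?_⟩
    by_contra hcon
    push Not at hcon
    classical
    set s : Finset ℕ := (Finset.range (i + 1)).filter
      (fun a => ¬ ∀ j, ∀ x : V N, e a j • x = 0) with hs
    have hcov : ⋃ a ∈ s, (0 : Fin k → V N) +ᵥ ((tup N (e a)).ker : Set (Fin k → V N)) =
        Set.univ := by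
      rw [Set.eq_univ_iff_forall]
      intro v
      obtain ⟨a, hai, hsum, j, x, hx⟩ := hcon v
      rw [Set.mem_iUnion₂]
      refine ⟨a, ?_, ?_⟩
      · rw [hs, Finset.mem_filter, Finset.mem_range]
        exact ⟨by omega, fun h => hx (h j x)⟩
      · rw [zero_vadd]
        exact hsum
    obtain ⟨a, has, -, hle⟩ := AddSubgroup.exists_index_le_card_of_leftCoset_cover hcov
    rw [hs, Finset.mem_filter] at has
    have h1 : s.card ≤ i + 1 := by
      have := Finset.card_filter_le (Finset.range (i + 1))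
        (fun a => ¬ ∀ j, ∀ x : V N, e a j • x = 0)
      rw [Finset.card_range] at this
      exact this
    rcases hN0 a N ((Finset.le_sup has.1).trans hN) with h | h
    · exact has.2 h
    · omega
  obtain ⟨Nn, hmono, hN⟩ := Filter.extraction_forall_of_eventually hev
  choose v hv using hN
  exact ⟨Nn, hmono, v, hv⟩


/-! ### The groups -/

section Groups

variable (Nn : ℕ → ℕ)

/-- the product of all levels -/
abbrev VV : Type := ∀ i, V (Nn i)

abbrev PP : Type := ∀ i, Equiv.Perm (V (Nn i))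

variable {Nn}

theorem og_mul (g h : F2) : og (g * h) = og g * og h := map_mul _ g h

theorem og_one : og 1 = 1 := map_one _

theorem og_inv_smul {M : Type} [AddCommGroup M] [Module R M] (g : F2) (x : M) :
    og g⁻¹ • og g • x = x := by
  rw [← mul_smul, ← og_mul, inv_mul_cancel, og_one, one_smul]

theorem og_smul_inv {M : Type} [AddCommGroup M] [Module R M] (g : F2) (x : M) :
    og g • og g⁻¹ • x = x := by
  rw [← mul_smul, ← og_mul, mul_inv_cancel, og_one, one_smul]

noncomputable def aff (w : VV Nn) (g : F2) : PP Nn := fun i =>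
  { toFun := fun x => og g • x + w i
    invFun := fun x => og g⁻¹ • (x - w i)
    left_inv := fun x => by
      show og g⁻¹ • (og g • x + w i - w i) = x
      rw [add_sub_cancel_right, og_inv_smul]
    right_inv := fun x => by
      show og g • (og g⁻¹ • (x - w i)) + w i = x
      rw [og_smul_inv, sub_add_cancel] }

theorem aff_apply (w : VV Nn) (g : F2) (i : ℕ) (x : V (Nn i)) : aff w g i x = og g • x + w i := rfl

theorem aff_mul (w w' : VV Nn) (g g' : F2) : aff w g * aff w' g' = aff (w + og g • w') (g * g') := by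
  funext i
  apply Equiv.ext
  intro x
  show aff w g i (aff w' g' i x) = _
  rw [aff_apply, aff_apply, aff_apply, og_mul, mul_smul, smul_add]
  show _ = _ + (w i + og g • w' i)
  abel

theorem aff_one : aff (0 : VV Nn) 1 = 1 := by
  funext i
  apply Equiv.ext
  intro x
  rw [aff_apply, og_one, one_smul]
  show x + 0 = x
  rw [add_zero]

theorem aff_inv (w : VV Nn) (g : F2) : (aff w g)⁻¹ = aff (-(og g⁻¹ • w)) g⁻¹ := by
  rw [inv_eq_iff_mul_eq_one, aff_mul, smul_neg, og_smul_inv, add_neg_cancel, mul_inv_cancel,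
    aff_one]

theorem aff_inj_left {w w' : VV Nn} {g g' : F2} (h : aff w g = aff w' g') : w = w' := by
  funext i
  have := congrArg (fun z : PP Nn => z i 0) h
  simpa [aff_apply] using this

variable (M : Submodule R (VV Nn))

/-- the group attached to a submodule -/
noncomputable def Gam : Subgroup (PP Nn) where
  carrier := {γ | ∃ w ∈ M, ∃ g : F2, γ = aff w g}
  mul_mem' := by
    rintro _ _ ⟨w, hw, g, rfl⟩ ⟨w', hw', g', rfl⟩
    exact ⟨_, M.add_mem hw (M.smul_mem _ hw'), _, aff_mul _ _ _ _⟩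
  one_mem' := ⟨0, M.zero_mem, 1, aff_one.symm⟩
  inv_mem' := by
    rintro _ ⟨w, hw, g, rfl⟩
    exact ⟨_, M.neg_mem (M.smul_mem _ hw), _, aff_inv _ _⟩

variable {M}

noncomputable def gF : F2 →* Gam M where
  toFun g := ⟨aff 0 g, 0, M.zero_mem, g, rfl⟩
  map_one' := Subtype.ext aff_one
  map_mul' g h := Subtype.ext (by
    show aff 0 (g * h) = aff 0 g * aff 0 h
    rw [aff_mul, smul_zero, add_zero])

noncomputable def tau (w : VV Nn) (hw : w ∈ M) : Gam M := ⟨aff w 1, w, hw, 1, rfl⟩

theorem tau_mul (w w' : VV Nn) (hw : w ∈ M) (hw' : w' ∈ M) :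
    tau w hw * tau w' hw' = tau (w + w') (M.add_mem hw hw') := by
  apply Subtype.ext
  show aff w 1 * aff w' 1 = aff (w + w') 1
  rw [aff_mul, og_one, one_smul, one_mul]

theorem tau_zero : tau (0 : VV Nn) M.zero_mem = 1 := Subtype.ext aff_one

theorem tau_neg (w : VV Nn) (hw : w ∈ M) : (tau w hw)⁻¹ = tau (-w) (M.neg_mem hw) := by
  rw [inv_eq_iff_mul_eq_one, tau_mul]
  apply Subtype.ext
  show aff (w + -w) 1 = 1
  rw [add_neg_cancel, aff_one]

theorem conj_tau (g : F2) (w : VV Nn) (hw : w ∈ M) :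
    gF g * tau w hw * (gF g)⁻¹ = tau (og g • w) (M.smul_mem _ hw) := by
  apply Subtype.ext
  show aff 0 g * aff w 1 * (aff 0 g)⁻¹ = aff (og g • w) 1
  rw [aff_inv, aff_mul, aff_mul]
  congr 1
  · simp
  · simp

theorem exists_decomp (γ : Gam M) : ∃ (w : VV Nn) (hw : w ∈ M) (g : F2),
    γ = tau w hw * gF g := by
  obtain ⟨_, w, hw, g, rfl⟩ := γ
  refine ⟨w, hw, g, Subtype.ext ?_⟩
  show aff w g = aff w 1 * aff 0 g
  rw [aff_mul, smul_zero, add_zero, one_mul]

/-- elements of `M` whose translation is sent into `P` -/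
noncomputable def WP {Q : Type} [Group Q] (f : Gam M →* Q) (P : Subgroup Q) :
    AddSubgroup (VV Nn) where
  carrier := {w | ∃ hw : w ∈ M, f (tau w hw) ∈ P}
  zero_mem' := ⟨M.zero_mem, by rw [tau_zero, map_one]; exact P.one_mem⟩
  add_mem' := by
    rintro w w' ⟨hw, h⟩ ⟨hw', h'⟩
    refine ⟨M.add_mem hw hw', ?_⟩
    rw [← tau_mul w w' hw hw', map_mul]
    exact P.mul_mem h h'
  neg_mem' := by
    rintro w ⟨hw, h⟩
    refine ⟨M.neg_mem hw, ?_⟩
    rw [← tau_neg w hw, map_inv]
    exact P.inv_mem h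

theorem WP_conj {Q : Type} [Group Q] (f : Gam M →* Q) (P : Subgroup Q)
    (g : F2) (hP : ∀ q ∈ P, f (gF g) * q * (f (gF g))⁻¹ ∈ P) (w : VV Nn) (hw : w ∈ WP f P) :
    og g • w ∈ WP f P := by
  obtain ⟨hw, h⟩ := hw
  refine ⟨M.smul_mem _ hw, ?_⟩
  rw [← conj_tau g w hw, map_mul, map_mul, map_inv]
  exact hP _ h

theorem closed_R {A : Type} [AddCommGroup A] [Module R A] (W : AddSubgroup A)
    (h : ∀ g : F2, ∀ w ∈ W, og g • w ∈ W) (z : R) : ∀ w ∈ W, z • w ∈ W := by
  induction z using MonoidAlgebra.induction_on with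
  | of g => exact h g
  | add y z hy hz =>
    intro w hw
    rw [add_smul]
    exact W.add_mem (hy w hw) (hz w hw)
  | smul c z hz =>
    intro w hw
    have : c • z = c.val • z := by
      conv_lhs => rw [← ZMod.natCast_zmod_val c]
      rw [Nat.cast_smul_eq_nsmul]
    rw [this, smul_assoc]
    exact W.nsmul_mem (hz w hw) _

theorem gF_mem {Q : Type} [Group Q] (f : Gam M →* Q) (P : Subgroup Q)
    (h0 : f (gF (FreeGroup.of 0)) ∈ P) (h1 : f (gF (FreeGroup.of 1)) ∈ P) (g : F2) :
    f (gF g) ∈ P := by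
  induction g using FreeGroup.induction_on with
  | C1 => rw [map_one, map_one]; exact P.one_mem
  | of i => fin_cases i; exacts [h0, h1]
  | inv_of i _ =>
    rw [map_inv, map_inv]
    apply P.inv_mem
    fin_cases i; exacts [h0, h1]
  | mul g h hg hh => rw [map_mul, map_mul]; exact P.mul_mem hg hh

/-- generation criterion -/
theorem gen_crit {k : ℕ} (v : Fin k → VV Nn) (hM : M = Submodule.span R (Set.range v))
    {Q : Type} [Group Q] (f : Gam M →* Q) (P : Subgroup Q)
    (h0 : f (gF (FreeGroup.of 0)) ∈ P) (h1 : f (gF (FreeGroup.of 1)) ∈ P)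
    (hv : ∀ j, v j ∈ WP f P) (γ : Gam M) : f γ ∈ P := by
  have hg := gF_mem f P h0 h1
  have hcl : ∀ z : R, ∀ w ∈ WP f P, z • w ∈ WP f P := by
    apply closed_R
    intro g w hw
    apply WP_conj f P g _ w hw
    intro q hq
    exact P.mul_mem (P.mul_mem (hg g) hq) (P.inv_mem (hg g))
  have hall : ∀ w ∈ M, w ∈ WP f P := by
    intro w hw
    rw [hM] at hw
    induction hw using Submodule.span_induction with
    | mem x hx => obtain ⟨j, rfl⟩ := hx; exact hv j
    | zero => exact (WP f P).zero_mem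
    | add x y _ _ hx hy => exact (WP f P).add_mem hx hy
    | smul z x _ hx => exact hcl z x hx
  obtain ⟨w, hw, g, rfl⟩ := exists_decomp γ
  rw [map_mul]
  obtain ⟨_, h⟩ := hall w hw
  exact P.mul_mem h (hg g)

theorem gam_fg {k : ℕ} (v : Fin k → VV Nn) (hM : M = Submodule.span R (Set.range v)) :
    Group.FG (Gam M) := by
  classical
  have hvM : ∀ j, v j ∈ M := fun j => by rw [hM]; exact Submodule.subset_span ⟨j, rfl⟩
  rw [Group.fg_iff]
  refine ⟨{gF (FreeGroup.of 0), gF (FreeGroup.of 1)} ∪ Set.range (fun j => tau (v j) (hvM j)),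
    ?_, ?_⟩
  · rw [eq_top_iff]
    intro γ _
    refine gen_crit v hM (MonoidHom.id _) _ ?_ ?_ ?_ γ
    · exact Subgroup.subset_closure (Or.inl (Or.inl rfl))
    · exact Subgroup.subset_closure (Or.inl (Or.inr rfl))
    · intro j
      exact ⟨hvM j, Subgroup.subset_closure (Or.inr ⟨j, rfl⟩)⟩
  · exact ((Set.finite_singleton _).insert _).union (Set.finite_range _)

theorem gam_rf (g : Gam M) (hg : g ≠ 1) :
    ∃ N : Subgroup (Gam M), N.Normal ∧ N.FiniteIndex ∧ g ∉ N := by
  have : ∃ i, (g : PP Nn) i ≠ 1 := by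
    by_contra hcon
    push Not at hcon
    exact hg (Subtype.ext (funext hcon))
  obtain ⟨i, hi⟩ := this
  refine ⟨((Pi.evalMonoidHom (fun i => Equiv.Perm (V (Nn i))) i).comp (Gam M).subtype).ker,
    inferInstance, ?_, ?_⟩
  · exact Subgroup.finiteIndex_ker _
  · rw [MonoidHom.mem_ker]
    exact hi

/-- the translation part -/
noncomputable def left (γ : Gam M) : VV Nn := fun i => (γ : PP Nn) i 0

theorem left_eq (γ : Gam M) (w : VV Nn) (g : F2) (h : (γ : PP Nn) = aff w g) : left γ = w := by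
  funext i
  show (γ : PP Nn) i 0 = w i
  rw [h, aff_apply, smul_zero, zero_add]

theorem left_span (S : Set (Gam M)) (N : Submodule R (VV Nn)) (hS : ∀ γ ∈ S, left γ ∈ N)
    (γ : Gam M) (hγ : γ ∈ Subgroup.closure S) : left γ ∈ N := by
  induction hγ using Subgroup.closure_induction with
  | mem x hx => exact hS x hx
  | one =>
    rw [left_eq (1 : Gam M) 0 1 aff_one.symm]
    exact N.zero_mem
  | mul x y _ _ hx hy =>
    obtain ⟨w, hw, g, hxe⟩ := x.2
    obtain ⟨w', hw', g', hye⟩ := y.2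
    rw [left_eq x w g hxe] at hx
    rw [left_eq y w' g' hye] at hy
    rw [left_eq (x * y) (w + og g • w') (g * g') (by
      rw [Subgroup.coe_mul, hxe, hye, aff_mul])]
    exact N.add_mem hx (N.smul_mem _ hy)
  | inv x _ hx =>
    obtain ⟨w, hw, g, hxe⟩ := x.2
    rw [left_eq x w g hxe] at hx
    rw [left_eq (x⁻¹) (-(og g⁻¹ • w)) g⁻¹ (by
      rw [Subgroup.coe_inv, hxe, aff_inv])]
    exact N.neg_mem (N.smul_mem _ hx)

theorem lower {k : ℕ} (v : ∀ i, Fin k → V (Nn i))
    (hM : M = Submodule.span R (Set.range (fun j i => v i j : Fin k → VV Nn)))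
    (e : ℕ → Fin k → R) (he : Function.Surjective e)
    (hgen : ∀ i, ∀ a ≤ i, ∑ j, e a j • v i j = 0 → ∀ j, ∀ x : V (Nn i), e a j • x = 0)
    (S : Finset (Gam M)) (hS : Subgroup.closure (S : Set (Gam M)) = ⊤) : k ≤ S.card := by
  classical
  set vv : Fin k → VV Nn := fun j i => v i j with hvv
  have hvM : ∀ j, vv j ∈ M := fun j => by rw [hM]; exact Submodule.subset_span ⟨j, rfl⟩
  have hY : ∀ γ : S, ∃ c : Fin k → R, ∑ j, c j • vv j = left γ.1 := by
    intro γ
    rw [← Submodule.mem_span_range_iff_exists_fun, ← hM]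
    obtain ⟨w, hw, g, h⟩ := γ.1.2
    rw [left_eq γ.1 w g h]
    exact hw
  have hX : ∀ j, ∃ c : S → R, ∑ γ, c γ • left γ.1 = vv j := by
    intro j
    rw [← Submodule.mem_span_range_iff_exists_fun]
    rw [← left_eq (tau (vv j) (hvM j)) (vv j) 1 rfl]
    apply left_span (S : Set (Gam M))
    · intro γ hγ
      exact Submodule.subset_span ⟨⟨γ, hγ⟩, rfl⟩
    · rw [hS]; exact Subgroup.mem_top _
  choose Y hY using hY
  choose X hX using hX
  -- the matrix of relations
  have hrel : ∀ j, ∑ j', ((∑ γ, X j γ * Y γ j') - (if j = j' then 1 else 0)) • vv j' = 0 := by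
    intro j
    simp only [sub_smul, Finset.sum_sub_distrib, Finset.sum_smul, ite_smul, one_smul, zero_smul,
      Finset.sum_ite_eq, Finset.mem_univ, if_true]
    rw [Finset.sum_comm, sub_eq_zero]
    conv_rhs => rw [← hX j]
    apply Finset.sum_congr rfl
    intro γ _
    rw [← hY γ, Finset.smul_sum]
    apply Finset.sum_congr rfl
    intro j' _
    rw [mul_smul]
  choose a ha using fun j => he (fun j' => (∑ γ, X j γ * Y γ j') - (if j = j' then 1 else 0))
  set i := Finset.univ.sup a with hi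
  have hzero : ∀ j j', ∀ x : V (Nn i),
      ((∑ γ, X j γ * Y γ j') - (if j = j' then 1 else 0)) • x = 0 := by
    intro j j' x
    have h1 := hgen i (a j) (Finset.le_sup (Finset.mem_univ j))
    rw [ha j] at h1
    apply h1 _ j' x
    have := congrFun (hrel j) i
    rw [Finset.sum_apply] at this
    exact this
  -- count
  let Φ : (Fin k → V (Nn i)) → (S → V (Nn i)) := fun x γ => ∑ j', Y γ j' • x j'
  let Ψ : (S → V (Nn i)) → (Fin k → V (Nn i)) := fun y j => ∑ γ, X j γ • y γ
  have hinv : ∀ x, Ψ (Φ x) = x := by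
    intro x
    funext j
    show ∑ γ, X j γ • ∑ j', Y γ j' • x j' = x j
    have h1 : ∑ j', ((∑ γ, X j γ * Y γ j') - (if j = j' then 1 else 0)) • x j' = 0 :=
      Finset.sum_eq_zero (fun j' _ => hzero j j' (x j'))
    simp only [sub_smul, Finset.sum_sub_distrib, Finset.sum_smul, ite_smul, one_smul, zero_smul,
      Finset.sum_ite_eq, Finset.mem_univ, if_true] at h1
    rw [Finset.sum_comm, sub_eq_zero] at h1
    rw [← h1]
    apply Finset.sum_congr rfl
    intro γ _
    rw [Finset.smul_sum]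
    apply Finset.sum_congr rfl
    intro j' _
    rw [mul_smul]
  have hΦ : Function.Injective Φ := Function.LeftInverse.injective hinv
  have hcard := Nat.card_le_card_of_injective Φ hΦ
  rw [Nat.card_fun, Nat.card_fun] at hcard
  simp only [Nat.card_eq_fintype_card (α := Fin k), Nat.card_eq_fintype_card (α := S),
    Fintype.card_fin, Fintype.card_coe] at hcard
  have hone : 1 < Nat.card (V (Nn i)) := Finite.one_lt_card
  exact (Nat.pow_le_pow_iff_right hone).mp hcard


/-! ### Finite quotients -/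

theorem rho_t_pow (N : ℕ) (n : ℕ) (x : V N) (a : L N) :
    rho N ((FreeGroup.of 0) ^ n) x a = x (a + n) := by
  induction n generalizing a with
  | zero => simp
  | succ n ih =>
    rw [pow_succ', map_mul]
    show rho N (FreeGroup.of 0) (rho N ((FreeGroup.of 0) ^ n) x) a = _
    have : rho N (FreeGroup.of 0) = tE N := by rw [rho, FreeGroup.lift_apply_of]; rfl
    rw [this, tE_apply, ih]
    congr 1
    push_cast
    ring

/-- the conjugates of the second generator -/
noncomputable def un (n : ℕ) : F2 :=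
  (FreeGroup.of 0) ^ n * FreeGroup.of 1 * ((FreeGroup.of 0) ^ n)⁻¹

theorem rho_un (N : ℕ) (n : ℕ) (x : V N) (a : L N) :
    rho N (un n) x a = sgn N (a + n) * x a := by
  rw [un, map_mul, map_mul]
  show rho N ((FreeGroup.of 0) ^ n) (rho N (FreeGroup.of 1) (rho N (((FreeGroup.of 0) ^ n)⁻¹) x)) a = _
  rw [rho_t_pow]
  have : rho N (FreeGroup.of 1) = uE N := by rw [rho, FreeGroup.lift_apply_of]; rfl
  rw [this, uE_apply]
  have h2 := rho_t_pow N n (rho N (((FreeGroup.of 0) ^ n)⁻¹) x) a
  rw [← h2]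
  have h3 : rho N ((FreeGroup.of 0) ^ n) (rho N (((FreeGroup.of 0) ^ n)⁻¹) x) = x := by
    show (rho N ((FreeGroup.of 0) ^ n) * rho N (((FreeGroup.of 0) ^ n)⁻¹)) x = x
    rw [← map_mul, mul_inv_cancel, map_one]
    rfl
  rw [h3]

/-- functions acting diagonally -/
abbrev DD (Nn : ℕ → ℕ) : Type := ∀ i, L (Nn i) → ZMod 3

def dm (g : DD Nn) (w : VV Nn) : VV Nn := fun i a => g i a * w i a

noncomputable def ss (n : ℕ) : DD Nn := fun i a => sgn (Nn i) (a + n)

theorem VV_ext (w w' : VV Nn) (h : ∀ i a, w i a = w' i a) : w = w' := by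
  funext i
  exact V_ext _ _ _ (h i)

theorem un_smul (n : ℕ) (w : VV Nn) : og (un n) • w = dm (ss n) w := by
  apply VV_ext
  intro i a
  show (og (un n) • w i) a = _
  rw [of_smul, rho_un]
  rfl

theorem dm_mul (g h : DD Nn) (w : VV Nn) : dm (g * h) w = dm g (dm h w) :=
  VV_ext _ _ (fun i a => mul_assoc _ _ _)

theorem dm_one (w : VV Nn) : dm 1 w = w := VV_ext _ _ (fun i a => one_mul _)

theorem dm_zero (w : VV Nn) : dm 0 w = 0 := VV_ext _ _ (fun i a => zero_mul _)

theorem dm_add (g h : DD Nn) (w : VV Nn) : dm (g + h) w = dm g w + dm h w :=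
  VV_ext _ _ (fun i a => add_mul _ _ _)

theorem dm_neg (g : DD Nn) (w : VV Nn) : dm (-g) w = -dm g w :=
  VV_ext _ _ (fun i a => neg_mul _ _)

theorem dm_sub (g h : DD Nn) (w : VV Nn) : dm (g - h) w = dm g w - dm h w := by
  rw [sub_eq_add_neg, dm_add, dm_neg, sub_eq_add_neg]

/-- the ring of diagonal functions generated by the signs -/
noncomputable def Dr (Nn : ℕ → ℕ) : Subring (DD Nn) := Subring.closure (Set.range ss)

theorem ss_mem (n : ℕ) : (ss n : DD Nn) ∈ Dr Nn := Subring.subset_closure ⟨n, rfl⟩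

theorem closed_Dr (W : AddSubgroup (VV Nn)) (h : ∀ n : ℕ, ∀ w ∈ W, og (un n) • w ∈ W)
    (g : DD Nn) (hg : g ∈ Dr Nn) : ∀ w ∈ W, dm g w ∈ W := by
  induction hg using Subring.closure_induction with
  | mem x hx =>
    obtain ⟨n, rfl⟩ := hx
    intro w hw
    rw [← un_smul]
    exact h n w hw
  | zero => intro w _; rw [dm_zero]; exact W.zero_mem
  | one => intro w hw; rw [dm_one]; exact hw
  | add x y _ _ hx hy => intro w hw; rw [dm_add]; exact W.add_mem (hx w hw) (hy w hw)
  | neg x _ hx => intro w hw; rw [dm_neg]; exact W.neg_mem (hx w hw)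
  | mul x y _ _ hx hy => intro w hw; rw [dm_mul]; exact hx _ (hy w hw)

/-- separation of positions -/
theorem separate (hmono : StrictMono Nn) (p p' : Σ i, L (Nn i)) (h : p ≠ p') :
    ∃ n : ℕ, (ss n : DD Nn) p.1 p.2 ≠ ss n p'.1 p'.2 := by
  obtain ⟨i, a⟩ := p
  obtain ⟨i', a'⟩ := p'
  rcases lt_trichotomy i i' with h1 | h1 | h1
  · exact sep_diff (Nn i) (Nn i') (hmono h1) a a'
  · subst h1
    apply sep_same
    intro hcon
    apply h
    have hcon' : a = a' := hcon
    rw [hcon']
  · obtain ⟨n, hn⟩ := sep_diff (Nn i') (Nn i) (hmono h1) a' a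
    exact ⟨n, hn.symm⟩

theorem exists_delta (hmono : StrictMono Nn) (J : Finset (Σ i, L (Nn i))) (p : Σ i, L (Nn i)) :
    ∃ g ∈ Dr Nn, g p.1 p.2 = 1 ∧ ∀ p' ∈ J, p' ≠ p → g p'.1 p'.2 = 0 := by
  classical
  induction J using Finset.induction_on with
  | empty => exact ⟨1, Subring.one_mem _, rfl, by simp⟩
  | insert p0 J hp0 ih =>
    obtain ⟨g, hg, hg1, hg0⟩ := ih
    by_cases hp : p0 = p
    · refine ⟨g, hg, hg1, ?_⟩
      intro p' hp' hne
      rcases Finset.mem_insert.mp hp' with h | h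
      · exact absurd (h.trans hp) hne
      · exact hg0 p' h hne
    · obtain ⟨n, hn⟩ := separate hmono p0 p hp
      obtain ⟨c, hc, hcv⟩ : ∃ c : DD Nn, c ∈ Dr Nn ∧ ∀ i a, c i a = ss n p.1 p.2 := by
        rcases sgn_cases (Nn p.1) (p.2 + n) with h | h
        · exact ⟨1, Subring.one_mem _, fun i a => h.symm⟩
        · exact ⟨-1, Subring.neg_mem _ (Subring.one_mem _), fun i a => h.symm⟩
      refine ⟨g * (1 - (ss n - c) * (ss n - c)), ?_, ?_, ?_⟩
      · exact Subring.mul_mem _ hg (Subring.sub_mem _ (Subring.one_mem _)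
          (Subring.mul_mem _ (Subring.sub_mem _ (ss_mem n) hc) (Subring.sub_mem _ (ss_mem n) hc)))
      · show g p.1 p.2 * (1 - (ss n p.1 p.2 - c p.1 p.2) * (ss n p.1 p.2 - c p.1 p.2)) = 1
        rw [hcv, hg1, sub_self]
        ring
      · intro p' hp' hne
        show g p'.1 p'.2 * (1 - (ss n p'.1 p'.2 - c p'.1 p'.2) * (ss n p'.1 p'.2 - c p'.1 p'.2)) = 0
        rcases Finset.mem_insert.mp hp' with h | h
        · subst h
          rw [hcv]
          have h1 : (1 - ((ss n : DD Nn) p'.1 p'.2 - ss n p.1 p.2) * (ss n p'.1 p'.2 - ss n p.1 p.2)) = 0 := by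
            have key : ∀ x y : ZMod 3, (x = 1 ∨ x = -1) → (y = 1 ∨ y = -1) → x ≠ y →
              1 - (x - y) * (x - y) = 0 := by decide
            exact key _ _ (sgn_cases _ _) (sgn_cases _ _) hn
          rw [h1, mul_zero]
        · rw [hg0 p' h hne, zero_mul]

open Classical in
/-- the indicator of a position -/
noncomputable def ind (p : Σ i, L (Nn i)) : VV Nn :=
  fun i a => if (⟨i, a⟩ : Σ i, L (Nn i)) = p then 1 else 0

open Classical in
theorem ind_apply (p : Σ i, L (Nn i)) (i : ℕ) (a : L (Nn i)) :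
    ind p i a = if (⟨i, a⟩ : Σ i, L (Nn i)) = p then 1 else 0 := rfl

open Classical in
/-- the restriction to a position -/
noncomputable def atp (w : VV Nn) (p : Σ i, L (Nn i)) : VV Nn :=
  fun i a => if (⟨i, a⟩ : Σ i, L (Nn i)) = p then w i a else 0

theorem VV_sum_apply {α : Type} (s : Finset α) (F : α → VV Nn) (i : ℕ) (a : L (Nn i)) :
    (∑ p ∈ s, F p) i a = ∑ p ∈ s, F p i a := by
  classical
  induction s using Finset.induction_on with
  | empty => rfl
  | insert b s hb ih =>
    rw [Finset.sum_insert hb, Finset.sum_insert hb, ← ih]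
    rfl

theorem upper (hmono : StrictMono Nn) {k : ℕ} (v : Fin k → VV Nn)
    (hM : M = Submodule.span R (Set.range v)) {Q : Type} [Group Q] [Finite Q]
    (f : Gam M →* Q) (hf : Function.Surjective f) :
    ∃ S : Finset Q, S.card ≤ 3 ∧ Subgroup.closure (S : Set Q) = ⊤ := by
  classical
  -- the order of the image of the shift
  set q := orderOf (f (gF (FreeGroup.of 0))) with hq
  have hq0 : q ≠ 0 := (orderOf_pos _).ne'
  have hun : ∀ n, f (gF (un (n + q))) = f (gF (un n)) := by
    intro n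
    have h1 : f (gF (FreeGroup.of 0)) ^ q = 1 := pow_orderOf_eq_one _
    simp only [un, map_mul, map_pow, map_inv, pow_add, mul_inv_rev]
    rw [h1]
    simp
  have hMcl : ∀ g ∈ Dr Nn, ∀ w ∈ M, dm g w ∈ M := by
    intro g hg w hw
    exact closed_Dr M.toAddSubgroup (fun n w hw => M.smul_mem _ hw) g hg w hw
  have hKcl : ∀ g ∈ Dr Nn, ∀ w ∈ WP f ⊥, dm g w ∈ WP f ⊥ := by
    intro g hg w hw
    refine closed_Dr (WP f ⊥) (fun n w hw => WP_conj f ⊥ _ ?_ w hw) g hg w hw
    intro x hx
    rw [Subgroup.mem_bot] at hx ⊢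
    rw [hx]; simp
  have hK1 : ∀ w ∈ M, ∀ n, dm (ss n - ss (n + q)) w ∈ WP f ⊥ := by
    intro w hw n
    have ha : dm (ss n) w ∈ M := hMcl _ (ss_mem n) w hw
    have hb : dm (ss (n + q)) w ∈ M := hMcl _ (ss_mem _) w hw
    have e1 : f (tau (dm (ss n) w) ha) = f (tau (dm (ss (n + q)) w) hb) := by
      have h1 : tau (dm (ss n) w) ha = gF (un n) * tau w hw * (gF (un n))⁻¹ := by
        rw [conj_tau]
        congr 1
        exact (un_smul n w).symm
      have h2 : tau (dm (ss (n + q)) w) hb = gF (un (n + q)) * tau w hw * (gF (un (n + q)))⁻¹ := by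
        rw [conj_tau]
        congr 1
        exact (un_smul _ w).symm
      rw [h1, h2]
      simp only [map_mul, map_inv, hun]
    rw [dm_sub]
    refine ⟨M.sub_mem ha hb, ?_⟩
    rw [Subgroup.mem_bot]
    have h3 : tau (dm (ss n) w - dm (ss (n + q)) w) (M.sub_mem ha hb) =
        tau (dm (ss n) w) ha * (tau (dm (ss (n + q)) w) hb)⁻¹ := by
      rw [tau_neg, tau_mul]
      congr 1
      exact sub_eq_add_neg _ _
    rw [h3, map_mul, map_inv, e1, mul_inv_cancel]
  set E : ℕ → DD Nn := fun n => (ss n - ss (n + q)) * (ss n - ss (n + q)) with hE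
  have hEr : ∀ n, E n ∈ Dr Nn := fun n =>
    Subring.mul_mem _ (Subring.sub_mem _ (ss_mem _) (ss_mem _))
      (Subring.sub_mem _ (ss_mem _) (ss_mem _))
  have hEK : ∀ w ∈ M, ∀ n, dm (E n) w ∈ WP f ⊥ := by
    intro w hw n
    rw [hE]
    simp only
    rw [dm_mul]
    exact hK1 _ (hMcl _ (Subring.sub_mem _ (ss_mem _) (ss_mem _)) w hw) n
  have hprod_mem : ∀ B : ℕ, (∏ n ∈ Finset.range B, (1 - E n)) ∈ Dr Nn := fun B =>
    Subring.prod_mem _ (fun n _ => Subring.sub_mem _ (Subring.one_mem _) (hEr n))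
  have hprod : ∀ B : ℕ, ∀ w ∈ M, dm (∏ n ∈ Finset.range B, (1 - E n)) w - w ∈ WP f ⊥ := by
    intro B
    induction B with
    | zero =>
      intro w hw
      rw [Finset.prod_range_zero, dm_one, sub_self]
      exact AddSubgroup.zero_mem _
    | succ B ih =>
      intro w hw
      have h1 := ih w hw
      have h2 := hEK _ (hMcl _ (hprod_mem B) w hw) B
      have h3 : dm (∏ n ∈ Finset.range (B + 1), (1 - E n)) w - w =
          (dm (∏ n ∈ Finset.range B, (1 - E n)) w - w) -
            dm (E B) (dm (∏ n ∈ Finset.range B, (1 - E n)) w) := by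
        rw [Finset.prod_range_succ, mul_comm, dm_mul, dm_sub, dm_one]
        abel
      rw [h3]
      exact AddSubgroup.sub_mem _ h1 h2
  obtain ⟨A, hA⟩ := aperiodic q hq0
  set h := (∏ n ∈ Finset.range (2 ^ A), (1 - E n) : DD Nn) with hh
  have hh0 : ∀ i, A ≤ i → ∀ a, h i a = 0 := by
    intro i hi a
    obtain ⟨n, hn, hne⟩ := hA (Nn i) (hi.trans (hmono.le_apply)) a
    rw [hh, Finset.prod_apply, Finset.prod_apply]
    apply Finset.prod_eq_zero (Finset.mem_range.mpr hn)
    show 1 - (sgn (Nn i) (a + n) - sgn (Nn i) (a + (n + q : ℕ))) *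
      (sgn (Nn i) (a + n) - sgn (Nn i) (a + (n + q : ℕ))) = 0
    have key : ∀ x y : ZMod 3, (x = 1 ∨ x = -1) → (y = 1 ∨ y = -1) → x ≠ y →
      1 - (x - y) * (x - y) = 0 := by decide
    apply key _ _ (sgn_cases _ _) (sgn_cases _ _)
    have e1 : a + ((n + q : ℕ) : L (Nn i)) = a + n + q := by push_cast; ring
    rw [e1]
    exact hne
  set J : Finset (Σ i, L (Nn i)) := (Finset.range A).sigma (fun i => Finset.univ) with hJ
  have hJmem : ∀ p : Σ i, L (Nn i), p ∈ J ↔ p.1 < A := by
    intro p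
    rw [hJ, Finset.mem_sigma, Finset.mem_range]
    simp
  set B := J.filter (fun p => ind p ∈ M) with hB
  have hvM : (∑ p ∈ B, ind p) ∈ M := by
    apply Submodule.sum_mem
    intro p hp
    exact (Finset.mem_filter.mp hp).2
  set vs := ∑ p ∈ B, ind p with hvs
  set P : Subgroup Q := Subgroup.closure
    {f (gF (FreeGroup.of 0)), f (gF (FreeGroup.of 1)), f (tau vs hvM)} with hP
  have hP0 : f (gF (FreeGroup.of 0)) ∈ P := Subgroup.subset_closure (by simp)
  have hP1 : f (gF (FreeGroup.of 1)) ∈ P := Subgroup.subset_closure (by simp)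
  have hP2 : f (tau vs hvM) ∈ P := Subgroup.subset_closure (by simp)
  have hPg := gF_mem f P hP0 hP1
  have hWcl : ∀ g ∈ Dr Nn, ∀ w ∈ WP f P, dm g w ∈ WP f P := by
    intro g hg w hw
    refine closed_Dr (WP f P) (fun n w hw => WP_conj f P _ ?_ w hw) g hg w hw
    intro x hx
    exact P.mul_mem (P.mul_mem (hPg _) hx) (P.inv_mem (hPg _))
  have hvsW : vs ∈ WP f P := ⟨hvM, hP2⟩
  have hKW : ∀ w ∈ WP f ⊥, w ∈ WP f P := by
    rintro w ⟨hw, h1⟩
    refine ⟨hw, ?_⟩
    rw [Subgroup.mem_bot] at h1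
    rw [h1]
    exact P.one_mem
  have hindW : ∀ p ∈ B, ind p ∈ WP f P := by
    intro p hp
    obtain ⟨g, hg, hg1, hg0⟩ := exists_delta hmono J p
    have : dm g vs = ind p := by
      apply VV_ext
      intro i a
      show g i a * vs i a = _
      rw [hvs, VV_sum_apply]
      simp only [ind_apply]
      rw [Finset.sum_ite_eq]
      by_cases h1 : (⟨i, a⟩ : Σ i, L (Nn i)) = p
      · rw [if_pos h1, if_pos (h1 ▸ hp)]
        subst h1
        rw [mul_one]
        exact hg1
      · rw [if_neg h1]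
        by_cases h2 : (⟨i, a⟩ : Σ i, L (Nn i)) ∈ B
        · rw [if_pos h2]
          have := hg0 ⟨i, a⟩ (Finset.mem_filter.mp h2).1 h1
          simp only at this
          rw [this, zero_mul]
        · rw [if_neg h2, mul_zero]
    rw [← this]
    exact hWcl g hg vs hvsW
  have hsupp : ∀ w ∈ M, (∀ i, A ≤ i → ∀ a, w i a = 0) → w ∈ WP f P := by
    intro w hw hw0
    have hsum : w = ∑ p ∈ J, atp w p := by
      apply VV_ext
      intro i a
      rw [VV_sum_apply]
      simp only [atp]
      rw [Finset.sum_ite_eq]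
      by_cases hi : i < A
      · rw [if_pos ((hJmem _).mpr hi)]
      · rw [hw0 i (not_lt.mp hi) a]
        simp
    have hatM : ∀ p ∈ J, atp w p ∈ M := by
      intro p hp
      obtain ⟨g, hg, hg1, hg0⟩ := exists_delta hmono J p
      have : dm g w = atp w p := by
        apply VV_ext
        intro i a
        show g i a * w i a = if (⟨i, a⟩ : Σ i, L (Nn i)) = p then w i a else 0
        by_cases h1 : (⟨i, a⟩ : Σ i, L (Nn i)) = p
        · rw [if_pos h1]
          subst h1
          have : g i a = 1 := hg1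
          rw [this, one_mul]
        · rw [if_neg h1]
          by_cases h2 : (⟨i, a⟩ : Σ i, L (Nn i)) ∈ J
          · have := hg0 ⟨i, a⟩ h2 h1
            simp only at this
            rw [this, zero_mul]
          · have : ¬ i < A := fun h3 => h2 ((hJmem _).mpr h3)
            rw [hw0 i (not_lt.mp this) a, mul_zero]
      rw [← this]
      exact hMcl g hg w hw
    rw [hsum]
    apply AddSubgroup.sum_mem
    intro p hp
    have hval : ∀ c : ZMod 3, c = 0 ∨ c = 1 ∨ c = -1 := by decide
    rcases hval (w p.1 p.2) with h0 | h1 | h2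
    · have : atp w p = 0 := by
        apply VV_ext
        intro i a
        show (if (⟨i, a⟩ : Σ i, L (Nn i)) = p then w i a else 0) = 0
        by_cases h3 : (⟨i, a⟩ : Σ i, L (Nn i)) = p
        · rw [if_pos h3]; subst h3; exact h0
        · rw [if_neg h3]
      rw [this]
      exact AddSubgroup.zero_mem _
    · have : atp w p = ind p := by
        apply VV_ext
        intro i a
        show (if (⟨i, a⟩ : Σ i, L (Nn i)) = p then w i a else 0) =
          (if (⟨i, a⟩ : Σ i, L (Nn i)) = p then 1 else 0)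
        by_cases h3 : (⟨i, a⟩ : Σ i, L (Nn i)) = p
        · rw [if_pos h3, if_pos h3]; subst h3; exact h1
        · rw [if_neg h3, if_neg h3]
      rw [this]
      apply hindW
      rw [hB, Finset.mem_filter]
      refine ⟨hp, ?_⟩
      rw [← this]
      exact hatM p hp
    · have : atp w p = -ind p := by
        apply VV_ext
        intro i a
        show (if (⟨i, a⟩ : Σ i, L (Nn i)) = p then w i a else 0) =
          -(if (⟨i, a⟩ : Σ i, L (Nn i)) = p then 1 else 0)
        by_cases h3 : (⟨i, a⟩ : Σ i, L (Nn i)) = p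
        · rw [if_pos h3, if_pos h3]; subst h3; exact h2
        · rw [if_neg h3, if_neg h3, neg_zero]
      rw [this]
      apply AddSubgroup.neg_mem
      apply hindW
      rw [hB, Finset.mem_filter]
      refine ⟨hp, ?_⟩
      have h4 := M.neg_mem (hatM p hp)
      rw [this, neg_neg] at h4
      exact h4
  have hall : ∀ w ∈ M, w ∈ WP f P := by
    intro w hw
    have h1 : dm h w ∈ WP f P := by
      apply hsupp _ (hMcl h (hprod_mem _) w hw)
      intro i hi a
      show h i a * w i a = 0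
      rw [hh0 i hi a, zero_mul]
    have h2 : dm h w - w ∈ WP f P := hKW _ (hprod _ w hw)
    have h3 := AddSubgroup.sub_mem _ h1 h2
    simpa using h3
  have hvM' : ∀ j, v j ∈ M := fun j => by rw [hM]; exact Submodule.subset_span ⟨j, rfl⟩
  have htop : P = ⊤ := by
    rw [eq_top_iff]
    intro x _
    obtain ⟨γ, rfl⟩ := hf x
    exact gen_crit v hM f P hP0 hP1 (fun j => hall _ (hvM' j)) γ
  refine ⟨{f (gF (FreeGroup.of 0)), f (gF (FreeGroup.of 1)), f (tau vs hvM)},
    Finset.card_le_three, ?_⟩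
  rw [← htop, hP]
  congr 1
  simp


/-- the constant function -/
def cst (N : ℕ) : V N := fun _ => 1

theorem not_commute (hmono : StrictMono Nn) :
    (gF (FreeGroup.of 0) : Gam M) * gF (FreeGroup.of 1) ≠ gF (FreeGroup.of 1) * gF (FreeGroup.of 0) := by
  intro hcon
  obtain ⟨A, hA⟩ := aperiodic 1 one_ne_zero
  obtain ⟨n, -, hne⟩ := hA (Nn A) hmono.le_apply 0
  rw [← map_mul, ← map_mul] at hcon
  have h1 := congrArg (fun γ : Gam M => (γ : PP Nn) A (cst (Nn A))) hcon
  have h2 : og (FreeGroup.of 0 * FreeGroup.of 1) • cst (Nn A) + 0 =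
    og (FreeGroup.of 1 * FreeGroup.of 0) • cst (Nn A) + 0 := h1
  rw [add_zero, add_zero, of_smul, of_smul, map_mul, map_mul] at h2
  have h3 := congrFun h2 (0 + n)
  have e0 : rho (Nn A) (FreeGroup.of 0) = tE (Nn A) := by rw [rho, FreeGroup.lift_apply_of]; rfl
  have e1 : rho (Nn A) (FreeGroup.of 1) = uE (Nn A) := by rw [rho, FreeGroup.lift_apply_of]; rfl
  rw [e0, e1] at h3
  have h4 : sgn (Nn A) (0 + n + 1) * 1 = sgn (Nn A) (0 + n) * 1 := h3
  apply hne
  rw [mul_one, mul_one] at h4
  rw [Nat.cast_one, h4]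

theorem cyclic_comm {Q : Type} [Group Q] (S : Finset Q) (hS : S.card ≤ 1)
    (hcl : Subgroup.closure (S : Set Q) = ⊤) (x y : Q) : x * y = y * x := by
  obtain ⟨z, hz⟩ : ∃ z : Q, S ⊆ {z} := by
    rcases Finset.card_le_one_iff_subset_singleton.mp hS with ⟨z, hz⟩
    exact ⟨z, hz⟩
  have h1 : ∀ w : Q, w ∈ Subgroup.zpowers z := by
    intro w
    have h2 : w ∈ Subgroup.closure (S : Set Q) := by rw [hcl]; exact Subgroup.mem_top _
    have h3 : Subgroup.closure (S : Set Q) ≤ Subgroup.zpowers z := by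
      rw [Subgroup.closure_le]
      intro u hu
      have : u = z := by simpa using hz hu
      rw [this]
      exact Subgroup.mem_zpowers z
    exact h3 h2
  obtain ⟨a, rfl⟩ := h1 x
  obtain ⟨b, rfl⟩ := h1 y
  show z ^ a * z ^ b = z ^ b * z ^ a
  rw [← zpow_add, ← zpow_add, add_comm]

theorem noncyclic_quotient (hmono : StrictMono Nn) :
    ∃ (Q : Type) (_ : Group Q) (_ : Finite Q) (f : Gam M →* Q), Function.Surjective f ∧
      ∀ S : Finset Q, S.card ≤ 2 - 1 → Subgroup.closure (S : Set Q) ≠ ⊤ := by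
  have h1 : (gF (FreeGroup.of 0) : Gam M) * gF (FreeGroup.of 1) *
      (gF (FreeGroup.of 1) * gF (FreeGroup.of 0))⁻¹ ≠ 1 := by
    rw [Ne, mul_inv_eq_one]
    exact not_commute hmono
  obtain ⟨N, hN, hfin, hg⟩ := gam_rf _ h1
  refine ⟨Gam M ⧸ N, inferInstance, inferInstance, QuotientGroup.mk' N,
    QuotientGroup.mk'_surjective N, ?_⟩
  intro S hS hcl
  apply hg
  rw [← QuotientGroup.ker_mk' N, MonoidHom.mem_ker, map_mul, map_inv, mul_inv_eq_one, map_mul,
    map_mul]
  exact cyclic_comm S hS hcl _ _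

end Groups


/-! ### Solubility -/

section Soluble

/-- the exponent of the first generator -/
def texp : F2 →* Multiplicative ℤ := FreeGroup.lift ![Multiplicative.ofAdd 1, 1]

theorem monomial (N : ℕ) (g : F2) : ∃ ε : L N → ZMod 3, ∀ (x : V N) (a : L N),
    rho N g x a = ε a * x (a + ((Multiplicative.toAdd (texp g) : ℤ) : L N)) := by
  have e0 : rho N (FreeGroup.of 0) = tE N := by rw [rho, FreeGroup.lift_apply_of]; rfl
  have e1 : rho N (FreeGroup.of 1) = uE N := by rw [rho, FreeGroup.lift_apply_of]; rfl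
  have t0 : texp (FreeGroup.of 0) = Multiplicative.ofAdd 1 := by
    rw [texp, FreeGroup.lift_apply_of]; rfl
  have t1 : texp (FreeGroup.of 1) = 1 := by rw [texp, FreeGroup.lift_apply_of]; rfl
  induction g using FreeGroup.induction_on with
  | C1 =>
    refine ⟨fun _ => 1, fun x a => ?_⟩
    rw [map_one, map_one]
    simp
  | of i =>
    fin_cases i
    · refine ⟨fun _ => 1, fun x a => ?_⟩
      show rho N (FreeGroup.of 0) x a = 1 * x (a + ((Multiplicative.toAdd (texp (FreeGroup.of 0)) : ℤ) : L N))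
      rw [e0, t0, tE_apply]
      simp
    · refine ⟨fun a => sgn N a, fun x a => ?_⟩
      show rho N (FreeGroup.of 1) x a = sgn N a * x (a + ((Multiplicative.toAdd (texp (FreeGroup.of 1)) : ℤ) : L N))
      rw [e1, t1, uE_apply]
      simp
  | inv_of i _ =>
    fin_cases i
    · refine ⟨fun _ => 1, fun x a => ?_⟩
      show rho N (FreeGroup.of 0)⁻¹ x a = 1 * x (a + ((Multiplicative.toAdd (texp (FreeGroup.of 0)⁻¹) : ℤ) : L N))
      rw [map_inv, map_inv, e0, t0, tE_symm_apply]
      simp [sub_eq_add_neg]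
    · refine ⟨fun a => sgn N a, fun x a => ?_⟩
      show rho N (FreeGroup.of 1)⁻¹ x a = sgn N a * x (a + ((Multiplicative.toAdd (texp (FreeGroup.of 1)⁻¹) : ℤ) : L N))
      rw [map_inv, map_inv, e1, t1, uE_symm_apply]
      simp
  | mul g h hg hh =>
    obtain ⟨ε, hε⟩ := hg
    obtain ⟨η, hη⟩ := hh
    refine ⟨fun a => ε a * η (a + ((Multiplicative.toAdd (texp g) : ℤ) : L N)), fun x a => ?_⟩
    rw [map_mul, map_mul]
    show rho N g (rho N h x) a = _
    rw [hε, hη, toAdd_mul]
    push_cast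
    rw [mul_assoc, add_assoc]

/-- elements of exponent zero act by commuting operators -/
theorem rho_comm (N : ℕ) (g h : F2) (hg : texp g = 1) (hh : texp h = 1) :
    rho N (g * h * g⁻¹ * h⁻¹) = 1 := by
  have key : rho N g * rho N h = rho N h * rho N g := by
    obtain ⟨ε, hε⟩ := monomial N g
    obtain ⟨η, hη⟩ := monomial N h
    rw [hg] at hε
    rw [hh] at hη
    apply LinearEquiv.ext
    intro x
    apply V_ext
    intro a
    show rho N g (rho N h x) a = rho N h (rho N g x) a
    rw [hε, hη, hη, hε]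
    simp only [toAdd_one, Int.cast_zero, add_zero]
    ring
  rw [map_mul, map_mul, map_mul, map_inv, map_inv, key]
  group

variable {Nn : ℕ → ℕ} {M : Submodule R (VV Nn)}

/-- elements with linear part of exponent zero -/
def Dg (M : Submodule R (VV Nn)) : Subgroup (Gam M) where
  carrier := {γ | ∃ w, ∃ g : F2, texp g = 1 ∧ (γ : PP Nn) = aff w g}
  mul_mem' := by
    rintro x y ⟨w, g, hg, hx⟩ ⟨w', g', hg', hy⟩
    exact ⟨w + og g • w', g * g', by rw [map_mul, hg, hg', one_mul], by
      rw [Subgroup.coe_mul, hx, hy, aff_mul]⟩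
  one_mem' := ⟨0, 1, map_one _, aff_one.symm⟩
  inv_mem' := by
    rintro x ⟨w, g, hg, hx⟩
    exact ⟨-(og g⁻¹ • w), g⁻¹, by rw [map_inv, hg, inv_one], by
      rw [Subgroup.coe_inv, hx, aff_inv]⟩

/-- translations -/
def Tr (M : Submodule R (VV Nn)) : Subgroup (Gam M) where
  carrier := {γ | ∃ w, (γ : PP Nn) = aff w 1}
  mul_mem' := by
    rintro x y ⟨w, hx⟩ ⟨w', hy⟩
    exact ⟨w + og 1 • w', by rw [Subgroup.coe_mul, hx, hy, aff_mul, mul_one]⟩
  one_mem' := ⟨0, aff_one.symm⟩
  inv_mem' := by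
    rintro x ⟨w, hx⟩
    exact ⟨-(og 1⁻¹ • w), by rw [Subgroup.coe_inv, hx, aff_inv, inv_one]⟩

theorem commutator_coe (w w' : VV Nn) (g g' : F2) : ∃ w'' : VV Nn,
    aff w g * aff w' g' * (aff w g)⁻¹ * (aff w' g')⁻¹ = aff w'' (g * g' * g⁻¹ * g'⁻¹) := by
  rw [aff_inv, aff_inv, aff_mul, aff_mul, aff_mul]
  exact ⟨_, rfl⟩

theorem gam_derived : derivedSeries (Gam M) 3 = ⊥ := by
  have h1 : derivedSeries (Gam M) 1 ≤ Dg M := by
    rw [derivedSeries_one, commutator_def, Subgroup.commutator_le]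
    rintro x - y -
    obtain ⟨w, hw, g, hx⟩ := x.2
    obtain ⟨w', hw', g', hy⟩ := y.2
    obtain ⟨w'', h⟩ := commutator_coe w w' g g'
    refine ⟨w'', g * g' * g⁻¹ * g'⁻¹, ?_, ?_⟩
    · simp only [map_mul, map_inv]
      rw [mul_comm (texp g) (texp g')]
      group
    · rw [← h, ← hx, ← hy]
      rfl
  have h2 : derivedSeries (Gam M) 2 ≤ Tr M := by
    rw [derivedSeries_succ]
    refine (Subgroup.commutator_mono h1 h1).trans ?_
    rw [Subgroup.commutator_le]
    rintro x ⟨w, g, hg, hx⟩ y ⟨w', g', hg', hy⟩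
    obtain ⟨w'', h⟩ := commutator_coe w w' g g'
    refine ⟨w'', ?_⟩
    have h3 : aff w'' (g * g' * g⁻¹ * g'⁻¹) = aff w'' 1 := by
      funext i
      apply Equiv.ext
      intro z
      rw [aff_apply, aff_apply, of_smul, rho_comm _ g g' hg hg', og_one, one_smul]
      rfl
    rw [← h3, ← h, ← hx, ← hy]
    rfl
  rw [derivedSeries_succ, eq_bot_iff]
  refine (Subgroup.commutator_mono h2 h2).trans ?_
  rw [Subgroup.commutator_le]
  rintro x ⟨w, hx⟩ y ⟨w', hy⟩
  rw [Subgroup.mem_bot, commutatorElement_eq_one_iff_mul_comm]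
  apply Subtype.ext
  rw [Subgroup.coe_mul, Subgroup.coe_mul, hx, hy, aff_mul, aff_mul, og_one, one_smul, one_smul,
    add_comm]

end Soluble

theorem main (k : ℕ) : ∃ (G : Type) (_ : Group G), Group.FG G ∧ derivedSeries G 3 = ⊥ ∧
    (∀ g : G, g ≠ 1 → ∃ N : Subgroup G, N.Normal ∧ N.FiniteIndex ∧ g ∉ N) ∧
    (∀ (Q : Type) [Group Q] [Finite Q] (f : G →* Q), Function.Surjective f →
        ∃ S : Finset Q, S.card ≤ 3 ∧ Subgroup.closure (S : Set Q) = ⊤) ∧
    (∃ (Q : Type) (_ : Group Q) (_ : Finite Q) (f : G →* Q), Function.Surjective f ∧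
        ∀ S : Finset Q, S.card ≤ 2 - 1 → Subgroup.closure (S : Set Q) ≠ ⊤) ∧
    (∀ S : Finset G, Subgroup.closure (S : Set G) = ⊤ → k ≤ S.card) := by
  obtain ⟨e, he⟩ := exists_surjective_nat (Fin k → R)
  obtain ⟨Nn, hmono, v, hv⟩ := generic e
  exact ⟨Gam (Submodule.span R (Set.range (fun j i => v i j : Fin k → VV Nn))), inferInstance,
    gam_fg _ rfl, gam_derived, gam_rf, fun Q _ _ f hf => upper hmono _ rfl f hf,
    noncyclic_quotient hmono, fun S hS => lower v rfl e he hv S hS⟩

end Pool.Agent.Helper512.GenNumbers
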